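import Pool.Agent.SYZ71M.MV1

/-!
# SYZ71M/MV3 : the exponent valuation on the fraction field

`val z = nu x - nu y` for `z = x / y`.  Elements with different values have nonzero sum; elements
with independent values are algebraically independent.
-/

set_option autoImplicit false

open MvPowerSeries

namespace Pool.Agent.SYZ71M

open Pool.Agent.SYZ71

variable {k : Type*} [Field k] {d : ℕ}

/-- the value in `ℤ^d` -/
noncomputable def nuZ (f : PS k d) : Fin d → ℤ := fun i => (nu f i : ℤ)

theorem nuZ_mul (f h : PS k d) (hf : f ≠ 0) (hh : h ≠ 0) : nuZ (f * h) = nuZ f + nuZ h := by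
  funext i
  simp only [nuZ, Pi.add_apply, nu_mul f h hf hh, Finsupp.add_apply, Nat.cast_add]

theorem nuZ_inj {f h : PS k d} (h1 : nuZ f = nuZ h) : nu f = nu h := by
  ext i
  have := congrFun h1 i
  simp only [nuZ] at this
  exact_mod_cast this

/-- the field of fractions -/
abbrev Fr (k : Type*) [Field k] (d : ℕ) : Type _ := FractionRing (PS k d)

theorem algebraMap_ne_zero {f : PS k d} (hf : f ≠ 0) :
    algebraMap (PS k d) (Fr k d) f ≠ 0 := by
  intro h
  apply hf
  exact (IsFractionRing.injective (PS k d) (Fr k d)) (by rw [h, map_zero])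

theorem exists_frac (z : Fr k d) : ∃ x y : PS k d, y ≠ 0 ∧
    z = algebraMap (PS k d) (Fr k d) x / algebraMap (PS k d) (Fr k d) y := by
  obtain ⟨x, y, hy, hz⟩ := IsFractionRing.div_surjective (A := PS k d) z
  exact ⟨x, y, nonZeroDivisors.ne_zero hy, hz.symm⟩

/-- the value of an element of the fraction field -/
noncomputable def val (z : Fr k d) : Fin d → ℤ :=
  nuZ (exists_frac z).choose - nuZ (exists_frac z).choose_spec.choose

theorem val_div (x y : PS k d) (hx : x ≠ 0) (hy : y ≠ 0) :
    val (algebraMap (PS k d) (Fr k d) x / algebraMap (PS k d) (Fr k d) y) = nuZ x - nuZ y := by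
  set z := algebraMap (PS k d) (Fr k d) x / algebraMap (PS k d) (Fr k d) y with hz
  have h1 := (exists_frac z).choose_spec.choose_spec
  set x' := (exists_frac z).choose with hx'
  set y' := (exists_frac z).choose_spec.choose with hy'
  obtain ⟨hy0, h2⟩ := h1
  have hy1 := algebraMap_ne_zero (k := k) (d := d) hy
  have hy1' := algebraMap_ne_zero (k := k) (d := d) hy0
  have h3 : algebraMap (PS k d) (Fr k d) (x * y') = algebraMap (PS k d) (Fr k d) (x' * y) := by
    rw [map_mul, map_mul]
    exact (div_eq_div_iff hy1 hy1').1 (hz.symm.trans h2)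
  have h4 : x * y' = x' * y := IsFractionRing.injective (PS k d) (Fr k d) h3
  have hx0 : x' ≠ 0 := by
    intro h0
    rw [h0, zero_mul] at h4
    exact mul_ne_zero hx hy0 h4
  have h5 := congrArg nuZ h4
  rw [nuZ_mul _ _ hx hy0, nuZ_mul _ _ hx0 hy] at h5
  change nuZ x' - nuZ y' = nuZ x - nuZ y
  have h6 : nuZ x' + nuZ y = nuZ x + nuZ y' := h5.symm
  exact sub_eq_sub_iff_add_eq_add.2 h6

theorem val_algebraMap (x : PS k d) (hx : x ≠ 0) :
    val (algebraMap (PS k d) (Fr k d) x) = nuZ x := by
  have h1 := val_div x 1 hx one_ne_zero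
  rw [map_one, div_one] at h1
  rw [h1]
  have h2 : nuZ (1 : PS k d) = 0 := by
    have h3 := nuZ_mul (1 : PS k d) 1 one_ne_zero one_ne_zero
    rw [mul_one] at h3
    exact (left_eq_add.1 h3)
  rw [h2, sub_zero]

theorem val_mul (z w : Fr k d) (hz : z ≠ 0) (hw : w ≠ 0) : val (z * w) = val z + val w := by
  obtain ⟨x, y, hy, rfl⟩ := exists_frac z
  obtain ⟨x', y', hy', rfl⟩ := exists_frac w
  have hx : x ≠ 0 := by rintro rfl; simp at hz
  have hx' : x' ≠ 0 := by rintro rfl; simp at hw
  rw [div_mul_div_comm, ← map_mul, ← map_mul,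
    val_div _ _ (mul_ne_zero hx hx') (mul_ne_zero hy hy'), val_div _ _ hx hy, val_div _ _ hx' hy',
    nuZ_mul _ _ hx hx', nuZ_mul _ _ hy hy']
  abel

theorem val_one : val (1 : Fr k d) = 0 := by
  have h1 := val_mul (1 : Fr k d) 1 one_ne_zero one_ne_zero
  rw [mul_one] at h1
  exact (left_eq_add.1 h1)

theorem val_inv (z : Fr k d) (hz : z ≠ 0) : val z⁻¹ = - val z := by
  have h1 := val_mul z z⁻¹ hz (inv_ne_zero hz)
  rw [mul_inv_cancel₀ hz, val_one] at h1
  exact (neg_eq_of_add_eq_zero_right h1.symm).symm

theorem val_pow (z : Fr k d) (hz : z ≠ 0) (n : ℕ) : val (z ^ n) = n • val z := by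
  induction n with
  | zero => rw [pow_zero, val_one, zero_smul]
  | succ n ih => rw [pow_succ, val_mul _ _ (pow_ne_zero n hz) hz, ih, succ_nsmul]

theorem val_prod {ι : Type*} (s : Finset ι) (z : ι → Fr k d) (hz : ∀ i ∈ s, z i ≠ 0) :
    val (∏ i ∈ s, z i) = ∑ i ∈ s, val (z i) := by
  classical
  induction s using Finset.induction_on with
  | empty => rw [Finset.prod_empty, Finset.sum_empty, val_one]
  | insert i s hi ih =>
    rw [Finset.prod_insert hi, Finset.sum_insert hi, val_mul, ih]
    · intro j hj; exact hz j (Finset.mem_insert_of_mem hj)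
    · exact hz i (Finset.mem_insert_self _ _)
    · rw [Finset.prod_ne_zero_iff]
      intro j hj; exact hz j (Finset.mem_insert_of_mem hj)

theorem val_const (c : k) (hc : c ≠ 0) : val (algebraMap k (Fr k d) c) = 0 := by
  rw [IsScalarTower.algebraMap_apply k (PS k d) (Fr k d)]
  have h0 : algebraMap k (PS k d) c ≠ 0 := by
    intro h
    apply hc
    exact (algebraMap k (PS k d)).injective (by rw [h, map_zero])
  rw [val_algebraMap _ h0]
  have h1 : algebraMap k (PS k d) c = c • (1 : PS k d) := Algebra.algebraMap_eq_smul_one c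
  have h2 : nu (algebraMap k (PS k d) c) = nu (1 : PS k d) := by
    rw [h1]
    exact nu_smul c hc 1 one_ne_zero
  have h3 : nuZ (algebraMap k (PS k d) c) = nuZ (1 : PS k d) := by
    unfold nuZ
    rw [h2]
  rw [h3, ← val_algebraMap _ one_ne_zero, map_one, val_one]

/-- elements of the fraction field with pairwise different values have a nonzero sum -/
theorem frac_sum_ne_zero {ι : Type*} (s : Finset ι) (hs : s.Nonempty) (z : ι → Fr k d)
    (hz : ∀ i ∈ s, z i ≠ 0) (hinj : Set.InjOn (fun i => val (z i)) s) : ∑ i ∈ s, z i ≠ 0 := by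
  classical
  obtain ⟨b, hb⟩ := IsLocalization.exist_integer_multiples (nonZeroDivisors (PS k d)) s z
  have hb0 : (b : PS k d) ≠ 0 := nonZeroDivisors.ne_zero b.2
  have hb1 := algebraMap_ne_zero (k := k) (d := d) hb0
  have hex : ∀ i : ι, ∃ a : PS k d, i ∈ s → algebraMap (PS k d) (Fr k d) a =
      algebraMap (PS k d) (Fr k d) b * z i := by
    intro i
    by_cases hi : i ∈ s
    · obtain ⟨a, ha⟩ := hb i hi
      refine ⟨a, fun _ => ?_⟩
      rw [ha, Algebra.smul_def]
    · exact ⟨0, fun h => absurd h hi⟩
  choose a ha using hex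
  have ha0 : ∀ i ∈ s, a i ≠ 0 := by
    intro i hi h0
    have h1 := ha i hi
    rw [h0, map_zero] at h1
    exact mul_ne_zero hb1 (hz i hi) h1.symm
  have hval : ∀ i ∈ s, nuZ (a i) = nuZ (b : PS k d) + val (z i) := by
    intro i hi
    rw [← val_algebraMap _ (ha0 i hi), ha i hi, val_mul _ _ hb1 (hz i hi), val_algebraMap _ hb0]
  have h1 : ∑ i ∈ s, a i ≠ 0 := by
    apply sum_ne_zero_of_injOn s hs a ha0
    intro i hi j hj hij
    apply hinj hi hj
    have h2 : nuZ (a i) = nuZ (a j) := by
      unfold nuZ
      simp only at hij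
      rw [hij]
    rw [hval i hi, hval j hj] at h2
    exact add_left_cancel h2
  intro h0
  apply h1
  apply IsFractionRing.injective (PS k d) (Fr k d)
  rw [map_sum, map_zero]
  rw [Finset.sum_congr rfl (fun i hi => ha i hi), ← Finset.mul_sum, h0, mul_zero]

/-- elements with independent values are algebraically independent -/
theorem algebraicIndependent_of_val {ι : Type*} [Fintype ι] (z : ι → Fr k d) (hz : ∀ i, z i ≠ 0)
    (hli : LinearIndependent ℤ (fun i => val (z i))) : AlgebraicIndependent k z := by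
  classical
  rw [algebraicIndependent_iff]
  intro p hp
  by_contra hne
  rw [MvPolynomial.aeval_def, MvPolynomial.eval₂_eq'] at hp
  refine frac_sum_ne_zero p.support ?_ (fun a => algebraMap k (Fr k d) (p.coeff a) *
    ∏ i, z i ^ a i) ?_ ?_ hp
  · rw [Finset.nonempty_iff_ne_empty]
    intro h
    exact hne (MvPolynomial.support_eq_empty.1 h)
  · intro a ha
    apply mul_ne_zero
    · rw [MvPolynomial.mem_support_iff] at ha
      intro h
      apply ha
      exact (algebraMap k (Fr k d)).injective (by rw [h, map_zero])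
    · rw [Finset.prod_ne_zero_iff]
      intro i _
      exact pow_ne_zero _ (hz i)
  · intro a ha b hb hab
    have hv : ∀ a : ι →₀ ℕ, p.coeff a ≠ 0 → val (algebraMap k (Fr k d) (p.coeff a) *
        ∏ i, z i ^ a i) = ∑ i, (a i : ℤ) • val (z i) := by
      intro a ha
      rw [val_mul, val_const _ ha, zero_add, val_prod]
      · apply Finset.sum_congr rfl
        intro i _
        rw [val_pow _ (hz i), natCast_zsmul]
      · intro i _; exact pow_ne_zero _ (hz i)
      · intro h
        apply ha
        exact (algebraMap k (Fr k d)).injective (by rw [h, map_zero])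
      · rw [Finset.prod_ne_zero_iff]
        intro i _
        exact pow_ne_zero _ (hz i)
    simp only at hab
    rw [Finset.mem_coe, MvPolynomial.mem_support_iff] at ha hb
    rw [hv a ha, hv b hb] at hab
    have h1 : ∑ i, ((a i : ℤ) - (b i : ℤ)) • val (z i) = 0 := by
      simp only [sub_smul]
      rw [Finset.sum_sub_distrib, hab, sub_self]
    have h2 := Fintype.linearIndependent_iff.1 hli _ h1
    ext i
    have := h2 i
    omega

end Pool.Agent.SYZ71M
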