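import Pool.Agent.SYZ71M.MV2
import Pool.Agent.SYZ71M.MV3

/-!
# SYZ71M/MV4 : `dim_k L ≤ dim_K (K L) * (s+1)^e`

`L` a finite dimensional space of power series all whose nonzero elements have order `≤ s`, `K` a
field of transcendence degree `≤ e` in the field of fractions.
-/

set_option autoImplicit false

open MvPowerSeries Module

namespace Pool.Agent.SYZ71M

open Pool.Agent.SYZ71

variable {k : Type*} [Field k] {d : ℕ}

/-- the value group of a subfield -/
noncomputable def valGroup (K : IntermediateField k (Fr k d)) : AddSubgroup (Fin d → ℤ) where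
  carrier := {t | ∃ z ∈ K, z ≠ 0 ∧ val z = t}
  add_mem' := by
    rintro _ _ ⟨z, hz, hz0, rfl⟩ ⟨w, hw, hw0, rfl⟩
    exact ⟨z * w, K.mul_mem hz hw, mul_ne_zero hz0 hw0, val_mul z w hz0 hw0⟩
  zero_mem' := ⟨1, K.one_mem, one_ne_zero, val_one⟩
  neg_mem' := by
    rintro _ ⟨z, hz, hz0, rfl⟩
    exact ⟨z⁻¹, K.inv_mem hz, inv_ne_zero hz0, val_inv z hz0⟩

theorem mem_valGroup (K : IntermediateField k (Fr k d)) (t : Fin d → ℤ) :
    t ∈ valGroup K ↔ ∃ z ∈ K, z ≠ 0 ∧ val z = t := Iff.rfl

/-- the rank of the value group is at most the transcendence degree -/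
theorem rank_valGroup (K : IntermediateField k (Fr k d)) (e : ℕ)
    (htr : Algebra.trdeg k K ≤ (e : Cardinal)) (S : Set (Fin d → ℤ))
    (hS : ∀ t ∈ S, t ∈ valGroup K) :
    Module.finrank ℚ (Submodule.span ℚ
      ((fun t : Fin d → ℤ => fun i => ((t i : ℤ) : ℚ)) '' S)) ≤ e := by
  classical
  set cast : (Fin d → ℤ) → (Fin d → ℚ) := fun t i => ((t i : ℤ) : ℚ) with hcast
  obtain ⟨b, hb, hspan, hli⟩ := exists_linearIndependent ℚ (cast '' S)
  have hfin : Fintype b := hli.setFinite.fintype
  rw [← hspan, finrank_span_set_eq_card hli, Set.toFinset_card]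
  have hch : ∀ x : b, ∃ z : Fr k d, z ∈ K ∧ z ≠ 0 ∧ cast (val z) = x := by
    intro x
    obtain ⟨t, ht, hx⟩ := hb x.2
    obtain ⟨z, hz, hz0, hzt⟩ := hS t ht
    exact ⟨z, hz, hz0, by rw [hzt]; exact hx⟩
  choose z hz hz0 hzx using hch
  have hli' : LinearIndependent ℤ (fun x : b => val (z x)) := by
    rw [Fintype.linearIndependent_iff]
    intro c hc
    have h1 : ∑ x : b, (c x : ℚ) • (x : Fin d → ℚ) = 0 := by
      funext i
      have h2 := congrFun hc i
      rw [Finset.sum_apply] at h2 ⊢
      have h3 : ∀ x : b, ((c x : ℚ) • (x : Fin d → ℚ)) i = ((c x * val (z x) i : ℤ) : ℚ) := by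
        intro x
        rw [Pi.smul_apply, ← hzx x, smul_eq_mul, Int.cast_mul]
      simp only [h3]
      rw [← Int.cast_sum]
      simp only [Pi.smul_apply, smul_eq_mul, Pi.zero_apply] at h2
      rw [h2]
      simp
    have h4 := Fintype.linearIndependent_iff.1 hli (fun x => (c x : ℚ)) h1
    intro x
    exact_mod_cast h4 x
  have hai := algebraicIndependent_of_val z hz0 hli'
  have hai2 : AlgebraicIndependent k (fun x : b => (⟨z x, hz x⟩ : K)) := by
    have h1 : z = (algebraMap K (Fr k d)) ∘ (fun x : b => (⟨z x, hz x⟩ : K)) := rfl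
    rw [h1] at hai
    exact hai.of_comp (f := IsScalarTower.toAlgHom k K (Fr k d))
  have h5 := hai2.lift_cardinalMk_le_trdeg
  rw [Cardinal.mk_fintype, Cardinal.lift_natCast, Cardinal.lift_id'] at h5
  have h6 := h5.trans htr
  exact_mod_cast h6

theorem finrank_le_mul (K : IntermediateField k (Fr k d)) (e s : ℕ)
    (htr : Algebra.trdeg k K ≤ (e : Cardinal)) (L : Submodule k (PS k d)) [Module.Finite k L]
    (hL : ∀ f ∈ L, f ≠ 0 → f.order ≤ (s : ℕ∞)) :
    finrank k L ≤ finrank K (Submodule.span K
      (algebraMap (PS k d) (Fr k d) '' (L : Set (PS k d)))) * (s + 1) ^ e := by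
  classical
  set SP : Submodule K (Fr k d) := Submodule.span K
      (algebraMap (PS k d) (Fr k d) '' (L : Set (PS k d))) with hSP
  -- finiteness of the `K`-span
  have hfinSP : Module.Finite K SP := by
    obtain ⟨B, hB⟩ := (Module.finite_def.1 (inferInstance : Module.Finite k L))
    have h1 : SP = Submodule.span K ((fun f : L => algebraMap (PS k d) (Fr k d) (f : PS k d)) ''
        (B : Set L)) := by
      apply le_antisymm
      · rw [hSP, Submodule.span_le]
        rintro _ ⟨f, hf, rfl⟩
        have h2 : (⟨f, hf⟩ : L) ∈ Submodule.span k (B : Set L) := by rw [hB]; trivial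
        refine Submodule.span_induction (p := fun (g : L) _ =>
          algebraMap (PS k d) (Fr k d) (g : PS k d) ∈ Submodule.span K
            ((fun f : L => algebraMap (PS k d) (Fr k d) (f : PS k d)) '' (B : Set L)))
          ?_ ?_ ?_ ?_ h2
        · intro g hg
          exact Submodule.subset_span ⟨g, hg, rfl⟩
        · simp
        · intro g g' _ _ h3 h4
          rw [Submodule.coe_add, map_add]
          exact Submodule.add_mem _ h3 h4
        · intro c g _ h3
          have h5 : algebraMap (PS k d) (Fr k d) ((c • g : L) : PS k d) =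
              (algebraMap k K c) • algebraMap (PS k d) (Fr k d) (g : PS k d) := by
            rw [Submodule.coe_smul, Algebra.smul_def, map_mul, Algebra.smul_def]
            rfl
          rw [h5]
          exact Submodule.smul_mem _ _ h3
      · rw [Submodule.span_le]
        rintro _ ⟨f, _, rfl⟩
        exact Submodule.subset_span ⟨f, f.2, rfl⟩
    rw [h1]
    exact Module.Finite.span_of_finite K (B.finite_toSet.image _)
  -- the set of values
  set Box : Finset (Fin d → ℤ) := Fintype.piFinset (fun _ => Finset.Icc (0 : ℤ) s) with hBox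
  set VL : Finset (Fin d → ℤ) := Box.filter (fun t => ∃ f ∈ L, f ≠ 0 ∧ nuZ f = t) with hVL
  have hmem : ∀ f ∈ L, f ≠ 0 → nuZ f ∈ VL := by
    intro f hf hf0
    rw [hVL, Finset.mem_filter]
    refine ⟨?_, f, hf, hf0, rfl⟩
    rw [hBox, Fintype.mem_piFinset]
    intro i
    rw [Finset.mem_Icc]
    refine ⟨by simp [nuZ], ?_⟩
    have h1 := hL f hf hf0
    rw [← degree_nu f hf0] at h1
    have h2 : Finsupp.degree (nu f) ≤ s := by exact_mod_cast h1
    have h3 : nu f i ≤ Finsupp.degree (nu f) := Finsupp.le_degree i (nu f)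
    simp only [nuZ]
    exact_mod_cast h3.trans h2
  -- `dim L ≤ #VL`
  have hdim : finrank k L ≤ VL.card := by
    let ev : L →ₗ[k] (VL → k) :=
      LinearMap.pi fun t => (coeff (Finsupp.equivFunOnFinite.symm fun i => ((t : Fin d → ℤ) i).toNat)
        : PS k d →ₗ[k] k).comp L.subtype
    have hinj : Function.Injective ev := by
      rw [← LinearMap.ker_eq_bot, LinearMap.ker_eq_bot']
      intro f hf
      by_contra hne
      have hf0 : (f : PS k d) ≠ 0 := by
        intro h; apply hne; exact Subtype.ext h
      have h1 := congrFun hf ⟨nuZ (f : PS k d), hmem f f.2 hf0⟩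
      change coeff (Finsupp.equivFunOnFinite.symm fun i => (nuZ (f : PS k d) i).toNat)
        (f : PS k d) = 0 at h1
      have h2 : (Finsupp.equivFunOnFinite.symm fun i => (nuZ (f : PS k d) i).toNat) =
          nu (f : PS k d) := by
        ext i
        simp [nuZ]
      rw [h2] at h1
      exact coeff_nu _ hf0 h1
    have h3 := LinearMap.finrank_le_finrank_of_injective hinj
    rw [Module.finrank_fintype_fun_eq_card, Fintype.card_coe] at h3
    exact h3
  -- cosets
  set π : (Fin d → ℤ) → (Fin d → ℤ) ⧸ valGroup K := QuotientAddGroup.mk with hπ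
  have himg : (VL.image π).card ≤ finrank K SP := by
    have hch : ∀ c : (VL.image π : Finset _), ∃ f ∈ L, f ≠ 0 ∧ π (nuZ f) = c := by
      intro c
      obtain ⟨t, ht, htc⟩ := Finset.mem_image.1 c.2
      rw [hVL, Finset.mem_filter] at ht
      obtain ⟨_, f, hf, hf0, hft⟩ := ht
      exact ⟨f, hf, hf0, by rw [hft]; exact htc⟩
    choose F hFL hF0 hFc using hch
    have hli : LinearIndependent K (fun c : (VL.image π : Finset _) =>
        (⟨algebraMap (PS k d) (Fr k d) (F c), Submodule.subset_span ⟨F c, hFL c, rfl⟩⟩ : SP)) := by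
      apply LinearIndependent.of_comp SP.subtype
      rw [Fintype.linearIndependent_iff]
      intro a ha
      by_contra hne
      push Not at hne
      obtain ⟨c₀, hc₀⟩ := hne
      set s' : Finset (VL.image π : Finset _) := Finset.univ.filter (fun c => a c ≠ 0) with hs'
      have hsum : ∑ c ∈ s', (a c : Fr k d) * algebraMap (PS k d) (Fr k d) (F c) = 0 := by
        rw [hs', Finset.sum_filter]
        refine Eq.trans (Finset.sum_congr rfl ?_) ha
        intro c _
        by_cases h0 : a c ≠ 0
        · rw [if_pos h0]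
          rfl
        · rw [if_neg h0]
          push Not at h0
          rw [h0, zero_smul]
      refine frac_sum_ne_zero s' ⟨c₀, by rw [hs', Finset.mem_filter]; exact
        ⟨Finset.mem_univ _, hc₀⟩⟩ _ ?_ ?_ hsum
      · intro c hc
        rw [hs', Finset.mem_filter] at hc
        apply mul_ne_zero
        · intro h; exact hc.2 (Subtype.ext h)
        · exact algebraMap_ne_zero (hF0 c)
      · intro c hc c' hc' hcc
        rw [Finset.mem_coe, hs', Finset.mem_filter] at hc hc'
        have ha1 : (a c : Fr k d) ≠ 0 := fun h => hc.2 (Subtype.ext h)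
        have ha2 : (a c' : Fr k d) ≠ 0 := fun h => hc'.2 (Subtype.ext h)
        simp only at hcc
        rw [val_mul _ _ ha1 (algebraMap_ne_zero (hF0 c)),
          val_mul _ _ ha2 (algebraMap_ne_zero (hF0 c')), val_algebraMap _ (hF0 c),
          val_algebraMap _ (hF0 c')] at hcc
        apply Subtype.ext
        rw [← hFc c, ← hFc c', hπ]
        rw [QuotientAddGroup.eq]
        have h1 : -nuZ (F c) + nuZ (F c') = val (a c : Fr k d) - val (a c' : Fr k d) := by
          have h2 : nuZ (F c') = val (a c : Fr k d) + nuZ (F c) - val (a c' : Fr k d) := by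
            rw [hcc]; abel
          rw [h2]; abel
        rw [h1]
        apply AddSubgroup.sub_mem
        · exact ⟨_, (a c).2, ha1, rfl⟩
        · exact ⟨_, (a c').2, ha2, rfl⟩
    have h1 := hli.fintype_card_le_finrank
    rw [Fintype.card_coe] at h1
    exact h1
  -- fibres
  have hfib : ∀ c ∈ VL.image π, (VL.filter (fun t => π t = c)).card ≤ (s + 1) ^ e := by
    intro c _
    apply card_le_of_rank e s
    · intro t ht i
      rw [Finset.mem_filter] at ht
      have h1 := ht.1
      rw [hVL, Finset.mem_filter, hBox, Fintype.mem_piFinset] at h1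
      have h2 := h1.1 i
      rw [Finset.mem_Icc] at h2
      exact h2
    · intro t₀ ht₀
      have h1 := rank_valGroup K e htr ((fun t => t - t₀) ''
        ((VL.filter (fun t => π t = c) : Finset _) : Set (Fin d → ℤ))) (by
          rintro _ ⟨t, ht, rfl⟩
          rw [Finset.mem_coe, Finset.mem_filter] at ht
          rw [Finset.mem_filter] at ht₀
          have h2 : π t₀ = π t := by rw [ht.2, ht₀.2]
          rw [hπ, QuotientAddGroup.eq] at h2
          have h3 : t - t₀ = -t₀ + t := by abel
          change t - t₀ ∈ valGroup K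
          rw [h3]
          exact h2)
      rw [Set.image_image] at h1
      exact h1
  calc finrank k L ≤ VL.card := hdim
    _ ≤ (s + 1) ^ e * (VL.image π).card := Finset.card_le_mul_card_image VL _ hfib
    _ ≤ (s + 1) ^ e * finrank K SP := Nat.mul_le_mul_left _ himg
    _ = finrank K SP * (s + 1) ^ e := Nat.mul_comm _ _

end Pool.Agent.SYZ71M
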