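import Pool.Agent.SYZ71.CDefs
import Pool.Agent.SYZ71M.MV4
import Pool.Agent.SYZ71Z.ZHilb

/-!
# SYZ71M/RA : the Iitaka field of a family, common denominators
-/

set_option autoImplicit false

open MvPowerSeries Module

namespace Pool.Agent.SYZ71M

open Pool.Agent.SYZ71

variable {k : Type*} [Field k] {d : ℕ}

theorem mul_mem_zero (L : ℕ → ℕ → Submodule k (PS k d)) (hL : IsFamily L) {E E' : ℕ}
    {a b : PS k d} (ha : a ∈ L 0 E) (hb : b ∈ L 0 E') : a * b ∈ L 0 (E + E') := by
  have h1 := hL.mul_mem 0 E 0 E' a b ha hb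
  simpa using h1

theorem mul_mem_left (L : ℕ → ℕ → Submodule k (PS k d)) (hL : IsFamily L) {D E E' : ℕ}
    {a b : PS k d} (ha : a ∈ L 0 E) (hb : b ∈ L D E') : a * b ∈ L D (E' + E) := by
  have h1 := hL.mul_mem 0 E D E' a b ha hb
  rw [zero_add, add_comm E E'] at h1
  exact h1

theorem pow_mem_zero (L : ℕ → ℕ → Submodule k (PS k d)) (hL : IsFamily L)
    (h00 : (1 : PS k d) ∈ L 0 0) {E : ℕ} {a : PS k d} (ha : a ∈ L 0 E) (n : ℕ) :
    a ^ n ∈ L 0 (n * E) := by
  induction n with
  | zero => simpa using h00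
  | succ n ih =>
    rw [pow_succ, Nat.succ_mul]
    exact mul_mem_zero L hL ih ha

theorem prod_mem_zero (L : ℕ → ℕ → Submodule k (PS k d)) (hL : IsFamily L)
    (h00 : (1 : PS k d) ∈ L 0 0) {ι : Type*} (S : Finset ι) (E : ι → ℕ) (c : ι → PS k d)
    (hc : ∀ i ∈ S, c i ∈ L 0 (E i)) : ∏ i ∈ S, c i ∈ L 0 (∑ i ∈ S, E i) := by
  classical
  induction S using Finset.induction_on with
  | empty => simpa using h00
  | insert i S hi ih =>
    rw [Finset.prod_insert hi, Finset.sum_insert hi]
    exact mul_mem_zero L hL (hc i (Finset.mem_insert_self _ _))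
      (ih fun j hj => hc j (Finset.mem_insert_of_mem hj))

/-- the Iitaka field: ratios of elements of `L 0 E` -/
noncomputable def iitaka (L : ℕ → ℕ → Submodule k (PS k d)) (hL : IsFamily L)
    (h00 : (1 : PS k d) ∈ L 0 0) : IntermediateField k (Fr k d) where
  carrier := {z | ∃ E, ∃ f ∈ L 0 E, ∃ h ∈ L 0 E, h ≠ 0 ∧
    z = algebraMap (PS k d) (Fr k d) f / algebraMap (PS k d) (Fr k d) h}
  mul_mem' := by
    rintro _ _ ⟨E, f, hf, h, hh, h0, rfl⟩ ⟨E', f', hf', h', hh', h0', rfl⟩
    refine ⟨E + E', f * f', mul_mem_zero L hL hf hf', h * h', mul_mem_zero L hL hh hh',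
      mul_ne_zero h0 h0', ?_⟩
    rw [map_mul, map_mul, div_mul_div_comm]
  add_mem' := by
    rintro _ _ ⟨E, f, hf, h, hh, h0, rfl⟩ ⟨E', f', hf', h', hh', h0', rfl⟩
    refine ⟨E + E', f * h' + h * f', Submodule.add_mem _ (mul_mem_zero L hL hf hh')
      (mul_mem_zero L hL hh hf'), h * h', mul_mem_zero L hL hh hh', mul_ne_zero h0 h0', ?_⟩
    rw [map_mul, map_add, map_mul, map_mul,
      div_add_div _ _ (algebraMap_ne_zero h0) (algebraMap_ne_zero h0')]
  algebraMap_mem' := by
    intro c
    refine ⟨0, c • (1 : PS k d), Submodule.smul_mem _ _ h00, 1, h00, one_ne_zero, ?_⟩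
    rw [map_one, div_one, ← Algebra.algebraMap_eq_smul_one,
      ← IsScalarTower.algebraMap_apply k (PS k d) (Fr k d)]
  inv_mem' := by
    rintro _ ⟨E, f, hf, h, hh, h0, rfl⟩
    by_cases hf0 : f = 0
    · refine ⟨0, 0, Submodule.zero_mem _, 1, h00, one_ne_zero, ?_⟩
      rw [hf0, map_zero, zero_div, inv_zero, zero_div]
    · exact ⟨E, h, hh, f, hf, hf0, by rw [inv_div]⟩

theorem mem_iitaka (L : ℕ → ℕ → Submodule k (PS k d)) (hL : IsFamily L)
    (h00 : (1 : PS k d) ∈ L 0 0) (z : Fr k d) : z ∈ iitaka L hL h00 ↔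
      ∃ E, ∃ f ∈ L 0 E, ∃ h ∈ L 0 E, h ≠ 0 ∧
        z = algebraMap (PS k d) (Fr k d) f / algebraMap (PS k d) (Fr k d) h := Iff.rfl

theorem iitaka_le (L : ℕ → ℕ → Submodule k (PS k d)) (hL : IsFamily L)
    (h00 : (1 : PS k d) ∈ L 0 0) : iitaka L hL h00 ≤ Fld L := by
  rintro _ ⟨E, f, hf, h, hh, _, rfl⟩
  exact (Fld L).div_mem (hL.mem_field 0 E f hf) (hL.mem_field 0 E h hh)

/-- common denominators -/
theorem common_den (L : ℕ → ℕ → Submodule k (PS k d)) (hL : IsFamily L)
    (h00 : (1 : PS k d) ∈ L 0 0) (e : ℕ) (x : Fin e → Fr k d)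
    (hx : ∀ i, x i ∈ iitaka L hL h00) :
    ∃ E, ∃ s : Fin (e + 1) → PS k d, (∀ i, s i ∈ L 0 E) ∧ s 0 ≠ 0 ∧
      ∀ i : Fin e, x i = algebraMap (PS k d) (Fr k d) (s i.succ) /
        algebraMap (PS k d) (Fr k d) (s 0) := by
  classical
  have hx' := fun i => (mem_iitaka L hL h00 (x i)).1 (hx i)
  choose E f hf h hh h0 hxe using hx'
  refine ⟨∑ i, E i, Fin.cons (∏ i, h i) (fun i => ∏ j, if j = i then f j else h j), ?_, ?_, ?_⟩
  · intro i
    refine Fin.cases ?_ (fun i => ?_) i
    · simp only [Fin.cons_zero]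
      exact prod_mem_zero L hL h00 _ _ _ (fun i _ => hh i)
    · simp only [Fin.cons_succ]
      apply prod_mem_zero L hL h00
      intro j _
      by_cases hji : j = i
      · rw [if_pos hji]; exact hf j
      · rw [if_neg hji]; exact hh j
  · simp only [Fin.cons_zero]
    rw [Finset.prod_ne_zero_iff]
    intro i _; exact h0 i
  · intro i
    simp only [Fin.cons_zero, Fin.cons_succ]
    have hP : ∏ i, h i ≠ 0 := by
      rw [Finset.prod_ne_zero_iff]
      intro i _; exact h0 i
    rw [hxe i, div_eq_div_iff (algebraMap_ne_zero (h0 i)) (algebraMap_ne_zero hP), ← map_mul,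
      ← map_mul]
    congr 1
    rw [← Finset.mul_prod_erase Finset.univ h (Finset.mem_univ i),
      ← Finset.mul_prod_erase Finset.univ (fun j => if j = i then f j else h j)
        (Finset.mem_univ i)]
    have h1 : ∏ j ∈ Finset.univ.erase i, (if j = i then f j else h j) =
        ∏ j ∈ Finset.univ.erase i, h j := by
      apply Finset.prod_congr rfl
      intro j hj
      rw [if_neg (Finset.ne_of_mem_erase hj)]
    rw [h1]
    simp only [if_true]
    ring

theorem exists_algInd_of_trdeg {k K : Type*} [Field k] [Field K] [Algebra k K] (e : ℕ)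
    (h : Algebra.trdeg k K = (e : Cardinal)) : ∃ x : Fin e → K, AlgebraicIndependent k x := by
  obtain ⟨s, hs⟩ := exists_isTranscendenceBasis k K
  have h1 := hs.cardinalMk_eq_trdeg
  rw [h] at h1
  have hemb : Nonempty (Fin e ↪ s) := by
    rw [← Cardinal.lift_mk_le']
    rw [Cardinal.mk_fin, Cardinal.lift_natCast, h1]
    simp
  obtain ⟨f⟩ := hemb
  exact ⟨fun i => (f i : K), hs.1.comp f f.injective⟩

/-- the `K`-span of a finite dimensional `k`-space is finite dimensional -/
theorem finite_span (K : IntermediateField k (Fr k d)) (L : Submodule k (PS k d))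
    [Module.Finite k L] : Module.Finite K (Submodule.span K
      (algebraMap (PS k d) (Fr k d) '' (L : Set (PS k d)))) := by
  classical
  obtain ⟨B, hB⟩ := (Module.finite_def.1 (inferInstance : Module.Finite k L))
  have h1 : Submodule.span K (algebraMap (PS k d) (Fr k d) '' (L : Set (PS k d))) =
      Submodule.span K ((fun f : L => algebraMap (PS k d) (Fr k d) (f : PS k d)) ''
      (B : Set L)) := by
    apply le_antisymm
    · rw [Submodule.span_le]
      rintro _ ⟨f, hf, rfl⟩
      have h2 : (⟨f, hf⟩ : L) ∈ Submodule.span k (B : Set L) := by rw [hB]; trivial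
      refine Submodule.span_induction (p := fun (g : L) _ =>
        algebraMap (PS k d) (Fr k d) (g : PS k d) ∈ Submodule.span K
          ((fun f : L => algebraMap (PS k d) (Fr k d) (f : PS k d)) '' (B : Set L)))
        ?_ ?_ ?_ ?_ h2
      · intro g hg
        exact Submodule.subset_span ⟨g, hg, rfl⟩
      · simp
      · intro g g' _ _ h3 h4
        rw [Submodule.coe_add, map_add]
        exact Submodule.add_mem _ h3 h4
      · intro c g _ h3
        have h5 : algebraMap (PS k d) (Fr k d) ((c • g : L) : PS k d) =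
            (algebraMap k K c) • algebraMap (PS k d) (Fr k d) (g : PS k d) := by
          rw [Submodule.coe_smul, Algebra.smul_def, map_mul, Algebra.smul_def]
          rfl
        rw [h5]
        exact Submodule.smul_mem _ _ h3
    · rw [Submodule.span_le]
      rintro _ ⟨f, _, rfl⟩
      exact Submodule.subset_span ⟨f, f.2, rfl⟩
  rw [h1]
  exact Module.Finite.span_of_finite K (B.finite_toSet.image _)

/-- a basis of the `K`-span consisting of elements of `L` -/
theorem exists_basis_span (K : IntermediateField k (Fr k d)) (L : Submodule k (PS k d))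
    [Module.Finite k L] : ∃ f : Fin (finrank K (Submodule.span K
      (algebraMap (PS k d) (Fr k d) '' (L : Set (PS k d))))) → PS k d, (∀ i, f i ∈ L) ∧
      LinearIndependent K (fun i => algebraMap (PS k d) (Fr k d) (f i)) := by
  classical
  have hfin := finite_span K L
  obtain ⟨b, hb, hspan, hli⟩ := exists_linearIndependent K
    (algebraMap (PS k d) (Fr k d) '' (L : Set (PS k d)))
  rw [← hspan] at hfin ⊢
  have hbf : Finite b := by
    have h1 : LinearIndependent K (fun x : b => (⟨(x : Fr k d), Submodule.subset_span x.2⟩ :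
        Submodule.span K b)) := by
      apply LinearIndependent.of_comp (Submodule.span K b).subtype
      exact hli
    exact h1.finite
  have hfb : Fintype b := Fintype.ofFinite b
  have hcard : finrank K (Submodule.span K b) = Fintype.card b := by
    rw [finrank_span_set_eq_card hli, Set.toFinset_card]
  rw [hcard]
  have hch : ∀ x : b, ∃ f ∈ L, algebraMap (PS k d) (Fr k d) f = x := fun x => hb x.2
  choose f hf hfx using hch
  refine ⟨fun i => f ((Fintype.equivFin b).symm i), fun i => hf _, ?_⟩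
  have h2 : (fun i => algebraMap (PS k d) (Fr k d) (f ((Fintype.equivFin b).symm i))) =
      (fun x : b => (x : Fr k d)) ∘ (Fintype.equivFin b).symm := by
    funext i
    exact hfx _
  rw [h2]
  exact hli.comp _ (Fintype.equivFin b).symm.injective

end Pool.Agent.SYZ71M
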