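import Pool.Agent.SYZ71.Main
import Pool.Agent.SYZ71M.RA

/-!
# SYZ71M/RB : relative growth bounds for a section family
-/

set_option autoImplicit false

open MvPowerSeries Module

namespace Pool.Agent.SYZ71M

open Pool.Agent.SYZ71

theorem growthLower_of_family {k : Type*} [Field k] (n : ℕ)
    (L : ℕ → ℕ → Submodule k (PS k (2 * n))) (hL : SectionFamily n L)
    (K : IntermediateField k (Fr k (2 * n))) (e : ℕ) (he : Algebra.trdeg k K = (e : ℕ)) :
    GrowthLower L K n e := by
  obtain ⟨c₀, hc₀⟩ := hL.lower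
  obtain ⟨C, hC⟩ := hL.order_le
  refine ⟨c₀ * (2 * C + 1) ^ e, ?_⟩
  intro D E hD hDE
  have hfin := hL.fin D E
  have h1 := finrank_le_mul K e (C * (D + E)) he.le (L D E) (fun f hf hf0 => hC D E f hf hf0)
  change finrank k (L D E) ≤ finrank K (KSpan L K D E) * (C * (D + E) + 1) ^ e at h1
  have h2 : C * (D + E) + 1 ≤ (2 * C + 1) * E := by
    have h3 : C * D ≤ C * E := Nat.mul_le_mul_left _ hDE
    nlinarith
  have h4 : (C * (D + E) + 1) ^ e ≤ (2 * C + 1) ^ e * E ^ e := by
    rw [← mul_pow]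
    exact Nat.pow_le_pow_left h2 e
  have h5 : 2 * n - n = n := by omega
  rw [h5, ← mul_pow]
  calc (D * E) ^ n ≤ c₀ * finrank k (L D E) := hc₀ D E hD hDE
    _ ≤ c₀ * (finrank K (KSpan L K D E) * ((2 * C + 1) ^ e * E ^ e)) :=
        Nat.mul_le_mul_left _ (h1.trans (Nat.mul_le_mul_left _ h4))
    _ = c₀ * (2 * C + 1) ^ e * (E ^ e * finrank K (KSpan L K D E)) := by ring

theorem pow_le_factorial_choose (E e : ℕ) : E ^ e ≤ e.factorial * (E + e).choose e := by
  rw [← Nat.ascFactorial_eq_factorial_mul_choose]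
  calc E ^ e ≤ (E + 1) ^ e := Nat.pow_le_pow_left (Nat.le_succ E) e
    _ ≤ (E + 1).ascFactorial e := Nat.pow_succ_le_ascFactorial (E + 1) e

/-- multiplication by monomials in sections of multiples of `α` -/
theorem count_upper {k : Type*} [Field k] {d : ℕ}
    (L : ℕ → ℕ → Submodule k (PS k d)) (hL : IsFamily L)
    (h00 : (1 : PS k d) ∈ L 0 0) (K : IntermediateField k (Fr k d)) (e E₀ : ℕ)
    (s : Fin (e + 1) → PS k d) (hs : ∀ i, s i ∈ L 0 E₀) (hs0 : s 0 ≠ 0)
    (hsK : ∀ i : Fin e, algebraMap (PS k d) (Fr k d) (s i.succ) /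
      algebraMap (PS k d) (Fr k d) (s 0) ∈ K)
    (hai : AlgebraicIndependent k (fun i : Fin e => algebraMap (PS k d) (Fr k d) (s i.succ) /
      algebraMap (PS k d) (Fr k d) (s 0))) (D E m : ℕ) :
    (m + e).choose e * finrank K (KSpan L K D E) ≤ finrank k (L D (E + m * E₀)) := by
  classical
  have hfin1 := hL.fin D E
  have hfin2 := hL.fin D (E + m * E₀)
  obtain ⟨R, hR, f, hf, hfli⟩ : ∃ R, R = finrank K (KSpan L K D E) ∧
      ∃ f : Fin R → PS k d, (∀ i, f i ∈ L D E) ∧
      LinearIndependent K (fun i => algebraMap (PS k d) (Fr k d) (f i)) :=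
    ⟨_, rfl, exists_basis_span K (L D E)⟩
  rw [← hR]
  -- the monomials
  set mon : Pool.Agent.SYZ71Z.Expo e m → PS k d := fun a =>
    ∏ i : Fin (e + 1), s i ^ (a : Fin (e + 1) →₀ ℕ) i with hmon
  have hmon_mem : ∀ a, mon a ∈ L 0 (m * E₀) := by
    intro a
    have h1 := prod_mem_zero L hL h00 Finset.univ (fun i => (a : Fin (e + 1) →₀ ℕ) i * E₀)
      (fun i => s i ^ (a : Fin (e + 1) →₀ ℕ) i) (fun i _ => pow_mem_zero L hL h00 (hs i) _)
    rw [← Finset.sum_mul] at h1
    have h2 : ∑ i, (a : Fin (e + 1) →₀ ℕ) i = m := by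
      have := a.sum_eq
      rw [Fin.sum_univ_succ]
      exact this
    rw [h2] at h1
    exact h1
  set σ := algebraMap (PS k d) (Fr k d) (s 0) with hσ
  have hσ0 : σ ≠ 0 := algebraMap_ne_zero hs0
  have hmon_eq : ∀ a, algebraMap (PS k d) (Fr k d) (mon a) = σ ^ m *
      ∏ i : Fin e, (algebraMap (PS k d) (Fr k d) (s i.succ) / σ) ^
        (a : Fin (e + 1) →₀ ℕ) i.succ := by
    intro a
    have h3 := a.sum_eq
    rw [hmon]
    simp only
    rw [Fin.prod_univ_succ, map_mul, map_prod, map_pow, ← hσ]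
    have h4 : ∏ i : Fin e, (algebraMap (PS k d) (Fr k d) (s i.succ) / σ) ^
        (a : Fin (e + 1) →₀ ℕ) i.succ =
        (∏ i : Fin e, algebraMap (PS k d) (Fr k d) (s i.succ ^ (a : Fin (e + 1) →₀ ℕ) i.succ)) /
          σ ^ (∑ i : Fin e, (a : Fin (e + 1) →₀ ℕ) i.succ) := by
      rw [← Finset.prod_pow_eq_pow_sum, ← Finset.prod_div_distrib]
      apply Finset.prod_congr rfl
      intro i _
      rw [div_pow, map_pow]
    rw [h4]
    have h5 : σ ^ m = σ ^ ((a : Fin (e + 1) →₀ ℕ) 0) *
        σ ^ (∑ i : Fin e, (a : Fin (e + 1) →₀ ℕ) i.succ) := by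
      rw [← pow_add, h3]
    rw [h5]
    have h6 : σ ^ (∑ i : Fin e, (a : Fin (e + 1) →₀ ℕ) i.succ) ≠ 0 := pow_ne_zero _ hσ0
    field_simp
  -- independence
  have hxli := Pool.Agent.SYZ71Z.linearIndependent_monomials
    (fun i : Fin e => algebraMap (PS k d) (Fr k d) (s i.succ) / σ) hai m
  have hmemL : ∀ p : Pool.Agent.SYZ71Z.Expo e m × Fin R, mon p.1 * f p.2 ∈ L D (E + m * E₀) := by
    intro p
    exact mul_mem_left L hL (hmon_mem p.1) (hf p.2)
  have hli : LinearIndependent k (fun p : Pool.Agent.SYZ71Z.Expo e m × Fin R =>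
      (⟨mon p.1 * f p.2, hmemL p⟩ : L D (E + m * E₀))) := by
    rw [Fintype.linearIndependent_iff]
    intro c hc
    have h1 : ∑ p : Pool.Agent.SYZ71Z.Expo e m × Fin R, c p • (mon p.1 * f p.2) = 0 := by
      have := congrArg Subtype.val hc
      rw [Submodule.coe_sum] at this
      exact this
    -- coefficients in `K`
    set x : Pool.Agent.SYZ71Z.Expo e m → Fr k d := fun a =>
      ∏ i : Fin e, (algebraMap (PS k d) (Fr k d) (s i.succ) / σ) ^
        (a : Fin (e + 1) →₀ ℕ) i.succ with hx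
    have hxK : ∀ a, x a ∈ K := by
      intro a
      exact prod_mem fun i _ => pow_mem (hsK i) _
    set y : Fin R → K := fun i => ∑ a, (algebraMap k K (c (a, i))) * ⟨x a, hxK a⟩ with hy
    have hyc : ∀ i, ((y i : K) : Fr k d) = ∑ a, algebraMap k (Fr k d) (c (a, i)) * x a := by
      intro i
      have h : K.val (y i) = ∑ a, K.val ((algebraMap k K (c (a, i))) * ⟨x a, hxK a⟩) := by
        rw [hy]; exact map_sum K.val _ _
      exact h.trans (Finset.sum_congr rfl fun a _ => rfl)
    have h2 : ∑ i, y i • algebraMap (PS k d) (Fr k d) (f i) = 0 := by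
      have h3 := congrArg (algebraMap (PS k d) (Fr k d)) h1
      rw [map_zero, map_sum] at h3
      have h4 : ∀ p : Pool.Agent.SYZ71Z.Expo e m × Fin R,
          algebraMap (PS k d) (Fr k d) (c p • (mon p.1 * f p.2)) =
          σ ^ m * (algebraMap k (Fr k d) (c p) * x p.1 *
            algebraMap (PS k d) (Fr k d) (f p.2)) := by
        intro p
        rw [Algebra.smul_def, map_mul, map_mul, hmon_eq,
          ← IsScalarTower.algebraMap_apply k (PS k d) (Fr k d)]
        ring
      rw [Finset.sum_congr rfl (fun p _ => h4 p), ← Finset.mul_sum] at h3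
      have h5 := (mul_eq_zero.1 h3).resolve_left (pow_ne_zero _ hσ0)
      rw [Fintype.sum_prod_type_right] at h5
      rw [← h5]
      apply Finset.sum_congr rfl
      intro i _
      have h6 : y i • algebraMap (PS k d) (Fr k d) (f i) =
          (y i : Fr k d) * algebraMap (PS k d) (Fr k d) (f i) := rfl
      rw [h6, hyc, Finset.sum_mul]
    have h7 := Fintype.linearIndependent_iff.1 hfli y h2
    rintro ⟨a, i⟩
    have h8 : ((y i : K) : Fr k d) = 0 := by
      rw [h7 i]; rfl
    have h9 : ∑ a, c (a, i) • x a = 0 := by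
      rw [hyc] at h8
      rw [← h8]
      apply Finset.sum_congr rfl
      intro a _
      rw [Algebra.smul_def]
    exact Fintype.linearIndependent_iff.1 hxli (fun a => c (a, i)) h9 a
  have h10 := hli.fintype_card_le_finrank
  rw [Fintype.card_prod, Pool.Agent.SYZ71Z.card_expo, Fintype.card_fin] at h10
  exact h10

theorem growthUpper_of_family {k : Type*} [Field k] (n : ℕ)
    (L : ℕ → ℕ → Submodule k (PS k (2 * n))) (hL : SectionFamily n L)
    (h00 : (1 : PS k (2 * n)) ∈ L 0 0)
    (K : IntermediateField k (Fr k (2 * n))) (hK : K ≤ iitaka L hL.toIsFamily h00) (e : ℕ)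
    (he : Algebra.trdeg k K = (e : ℕ)) : GrowthUpper L K n e := by
  obtain ⟨x, hx⟩ := exists_algInd_of_trdeg e he
  obtain ⟨E₀, s, hs, hs0, hsx⟩ := common_den L hL.toIsFamily h00 e (fun i => (x i : Fr k (2 * n)))
    (fun i => hK (x i).2)
  have hai : AlgebraicIndependent k (fun i : Fin e => ((x i : K) : Fr k (2 * n))) := by
    have h1 : AlgebraicIndependent k
        ((IsScalarTower.toAlgHom k K (Fr k (2 * n))) ∘ x) :=
      hx.map' (algebraMap K (Fr k (2 * n))).injective
    exact h1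
  simp only [hsx] at hai
  obtain ⟨C, hC⟩ := hL.upper
  refine ⟨e.factorial * (C * (1 + E₀) ^ n), ?_⟩
  intro D E hD hDE
  have h1 := count_upper L hL.toIsFamily h00 K e E₀ s hs hs0
    (fun i => by rw [← hsx i]; exact (x i).2) hai D E E
  have h2 := hC D (E + E * E₀) hD (by nlinarith)
  have h5 : 2 * n - n = n := by omega
  rw [h5]
  calc E ^ e * finrank K (KSpan L K D E)
      ≤ e.factorial * (E + e).choose e * finrank K (KSpan L K D E) :=
        Nat.mul_le_mul_right _ (pow_le_factorial_choose E e)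
    _ = e.factorial * ((E + e).choose e * finrank K (KSpan L K D E)) := by ring
    _ ≤ e.factorial * (C * (D * (E + E * E₀)) ^ n) :=
        Nat.mul_le_mul_left _ (h1.trans h2)
    _ = e.factorial * (C * (1 + E₀) ^ n) * (D ^ n * E ^ n) := by
        rw [show E + E * E₀ = (1 + E₀) * E by ring, mul_pow, mul_pow]
        ring

end Pool.Agent.SYZ71M
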