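import Pool.Agent.SYZ71.Core
import Pool.Agent.SYZ71.ZDom
import Pool.Agent.SYZ71M.RB

/-!
# SYZ71M/RC : the inequality `(n - κ) r ≤ 2n (n + κ - e₁)` from `core`
-/

set_option autoImplicit false

open MvPowerSeries Module TensorProduct

namespace Pool.Agent.SYZ71M

open Pool.Agent.SYZ71

theorem rel_core {k : Type*} [Field k] [CharZero k] (n r e₀ e₁ : ℕ)
    (g : (Fin r → ℤ) → (PS k (2 * n) ≃ₐ[k] PS k (2 * n)))
    (hg : ∀ u v, g (u + v) = g u * g v) (hloc : LocalBound n g)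
    (L : ℕ → ℕ → Submodule k (PS k (2 * n))) (hL : SectionFamily n L)
    (h00 : (1 : PS k (2 * n)) ∈ L 0 0)
    (hgL : ∃ C : ℕ, ∀ (v : Fin r → ℤ) (D E : ℕ), 1 ≤ D → ∃ b : PS k (2 * n), b ≠ 0 ∧
      ∀ f ∈ L D E, b * g v f ∈ L (2 * D) (E + C * D * (1 + ∑ i, (v i).natAbs ^ 2)))
    (hinv : ∀ v, v ≠ 0 → ∀ D, ∀ f ∈ L D 0, ∀ h ∈ L D 0, h ≠ 0 → g v f * h = f * g v h →
      ∃ E, ∃ f' ∈ L 0 E, ∃ h' ∈ L 0 E, h' ≠ 0 ∧ f * h' = f' * h)
    (he₀ : Algebra.trdeg k (iitaka L hL.toIsFamily h00) = (e₀ : ℕ))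
    (K₁ : IntermediateField k (Fr k (2 * n))) (hK₁ : K₁ ≤ iitaka L hL.toIsFamily h00)
    (h₁ : K₁ ≤ Fld L)
    (he₁ : Algebra.trdeg k K₁ = (e₁ : ℕ)) (he : e₁ ≤ e₀)
    (hK : ∀ v, ∀ f h : PS k (2 * n), h ≠ 0 → algebraMap (PS k (2 * n)) (Fr k (2 * n)) f /
      algebraMap (PS k (2 * n)) (Fr k (2 * n)) h ∈ K₁ → g v f * h = f * g v h)
    (hdom : IsDomain (IntermediateField.extendScalars h₁ ⊗[K₁]
      IntermediateField.extendScalars h₁)) :
    (n - e₀) * r ≤ 2 * n * (n + e₀ - e₁) := by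
  by_contra hlt
  rw [not_le] at hlt
  have hen : e₀ < n := by
    by_contra h
    rw [not_lt] at h
    rw [Nat.sub_eq_zero_of_le h, zero_mul] at hlt
    exact absurd hlt (Nat.not_lt_zero _)
  obtain ⟨v, hv, D, f, hf, h, hh, hh0, hfh, hgv⟩ := core n n e₀ e₁ r (by omega) (by omega)
    (by omega) (by omega) (by
      rw [show 2 * n - n = n by omega, show 2 * n - (n + e₀) = n - e₀ by omega]
      exact hlt) g hg hloc L hL.toIsFamily hgL (iitaka L hL.toIsFamily h00) K₁ hK₁ h₁ he₁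
      hL.trdeg (growthLower_of_family n L hL _ e₀ he₀)
      (growthUpper_of_family n L hL h00 K₁ hK₁ e₁ he₁) hK hdom
  apply hfh
  obtain ⟨E, f', hf', h', hh', hh0', heq⟩ := hinv v hv D f hf h hh hh0 hgv
  rw [mem_iitaka]
  refine ⟨E, f', hf', h', hh', hh0', ?_⟩
  rw [div_eq_div_iff (algebraMap_ne_zero hh0) (algebraMap_ne_zero hh0'), ← map_mul, ← map_mul, heq]

theorem exists_trdeg_iitaka {k : Type*} [Field k] (n : ℕ)
    (L : ℕ → ℕ → Submodule k (PS k (2 * n))) (hL : SectionFamily n L)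
    (h00 : (1 : PS k (2 * n)) ∈ L 0 0) :
    ∃ e₀ : ℕ, Algebra.trdeg k (iitaka L hL.toIsFamily h00) = (e₀ : ℕ) := by
  have h1 : Algebra.trdeg k (iitaka L hL.toIsFamily h00) ≤ Algebra.trdeg k (Fld L) := by
    exact trdeg_le_of_injective (IntermediateField.inclusion
      (iitaka_le L hL.toIsFamily h00))
      (IntermediateField.inclusion (iitaka_le L hL.toIsFamily h00)).injective
  rw [hL.trdeg] at h1
  have h2 := h1.trans_lt (Cardinal.natCast_lt_aleph0 (n := 2 * n))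
  obtain ⟨e, he⟩ := Cardinal.lt_aleph0.1 h2
  exact ⟨e, he⟩

theorem exists_kappa {k : Type*} [Field k] {d : ℕ}
    (L : ℕ → ℕ → Submodule k (PS k d)) (hL : IsFamily L)
    (h00 : (1 : PS k d) ∈ L 0 0) (e : ℕ)
    (he : Algebra.trdeg k (iitaka L hL h00) = (e : ℕ)) :
    ∃ E : ℕ, ∃ s : Fin (e + 1) → PS k d, (∀ i, s i ∈ L 0 E) ∧ s 0 ≠ 0 ∧
      AlgebraicIndependent k (fun i : Fin e => algebraMap (PS k d) (Fr k d) (s i.succ) /
        algebraMap (PS k d) (Fr k d) (s 0)) := by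
  obtain ⟨x, hx⟩ := exists_algInd_of_trdeg e he
  obtain ⟨E₀, s, hs, hs0, hsx⟩ := common_den L hL h00 e (fun i => (x i : Fr k d))
    (fun i => (x i).2)
  have hai : AlgebraicIndependent k (fun i : Fin e => ((x i : iitaka L hL h00) : Fr k d)) := by
    have h1 : AlgebraicIndependent k
        ((IsScalarTower.toAlgHom k (iitaka L hL h00) (Fr k d)) ∘ x) :=
      hx.map' (algebraMap (iitaka L hL h00) (Fr k d)).injective
    exact h1
  simp only [hsx] at hai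
  exact ⟨E₀, s, hs, hs0, hai⟩

theorem isDomain_bot {k : Type*} [Field k] [IsAlgClosed k] {d : ℕ}
    (L : ℕ → ℕ → Submodule k (PS k d)) :
    IsDomain (IntermediateField.extendScalars (bot_le : (⊥ : IntermediateField k (Fr k d)) ≤ Fld L)
      ⊗[(⊥ : IntermediateField k (Fr k d))]
      IntermediateField.extendScalars (bot_le : (⊥ : IntermediateField k (Fr k d)) ≤ Fld L)) := by
  have hac : IsAlgClosed (⊥ : IntermediateField k (Fr k d)) :=
    IsAlgClosed.of_ringEquiv k _ (IntermediateField.botEquiv k (Fr k d)).symm.toRingEquiv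
  exact Pool.Agent.SYZ71.ZE.isDomain_tensor

theorem trdeg_bot {k : Type*} [Field k] {d : ℕ} :
    Algebra.trdeg k (⊥ : IntermediateField k (Fr k d)) = ((0 : ℕ) : Cardinal) := by
  obtain ⟨s, hs⟩ := exists_isTranscendenceBasis k (⊥ : IntermediateField k (Fr k d))
  have hem : IsEmpty s := by
    constructor
    rintro x
    have h1 := hs.1.transcendental x
    apply h1
    obtain ⟨c, hc⟩ := IntermediateField.mem_bot.1 ((x : (⊥ : IntermediateField k (Fr k d)))).2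
    have h2 : ((x : (⊥ : IntermediateField k (Fr k d)))) =
        algebraMap k (⊥ : IntermediateField k (Fr k d)) c := Subtype.ext hc.symm
    rw [h2]
    exact isAlgebraic_algebraMap c
  rw [← hs.cardinalMk_eq_trdeg, Nat.cast_zero]
  exact Cardinal.mk_eq_zero s

/-- the unconditional inequality -/
theorem rel_full {k : Type*} [Field k] [CharZero k] [IsAlgClosed k] (n r : ℕ)
    (g : (Fin r → ℤ) → (PS k (2 * n) ≃ₐ[k] PS k (2 * n)))
    (hg : ∀ u v, g (u + v) = g u * g v) (hloc : LocalBound n g)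
    (L : ℕ → ℕ → Submodule k (PS k (2 * n))) (hL : SectionFamily n L)
    (h00 : (1 : PS k (2 * n)) ∈ L 0 0)
    (hgL : ∃ C : ℕ, ∀ (v : Fin r → ℤ) (D E : ℕ), 1 ≤ D → ∃ b : PS k (2 * n), b ≠ 0 ∧
      ∀ f ∈ L D E, b * g v f ∈ L (2 * D) (E + C * D * (1 + ∑ i, (v i).natAbs ^ 2)))
    (hinv : ∀ v, v ≠ 0 → ∀ D, ∀ f ∈ L D 0, ∀ h ∈ L D 0, h ≠ 0 → g v f * h = f * g v h →
      ∃ E, ∃ f' ∈ L 0 E, ∃ h' ∈ L 0 E, h' ≠ 0 ∧ f * h' = f' * h) :
    ∃ e : ℕ, (∃ E : ℕ, ∃ s : Fin (e + 1) → PS k (2 * n), (∀ i, s i ∈ L 0 E) ∧ s 0 ≠ 0 ∧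
      AlgebraicIndependent k (fun i : Fin e =>
        algebraMap (PS k (2 * n)) (Fr k (2 * n)) (s i.succ) /
        algebraMap (PS k (2 * n)) (Fr k (2 * n)) (s 0))) ∧ (n - e) * r ≤ 2 * n * (n + e) := by
  obtain ⟨e₀, he₀⟩ := exists_trdeg_iitaka n L hL h00
  refine ⟨e₀, exists_kappa L hL.toIsFamily h00 e₀ he₀, ?_⟩
  have h1 := rel_core n r e₀ 0 g hg hloc L hL h00 hgL hinv he₀ ⊥ bot_le bot_le trdeg_bot
    (Nat.zero_le _) (by
      intro v f h hh hfh
      rw [IntermediateField.mem_bot] at hfh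
      obtain ⟨c, hc⟩ := hfh
      have h2 : algebraMap (PS k (2 * n)) (Fr k (2 * n)) f =
          algebraMap (PS k (2 * n)) (Fr k (2 * n)) (c • h) := by
        rw [Algebra.smul_def, map_mul, ← IsScalarTower.algebraMap_apply k (PS k (2 * n))
          (Fr k (2 * n)), hc, div_mul_cancel₀ _ (algebraMap_ne_zero hh)]
      have h3 : f = c • h := IsFractionRing.injective (PS k (2 * n)) (Fr k (2 * n)) h2
      rw [h3, map_smul, smul_mul_assoc, smul_mul_assoc, mul_comm (g v h) h])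
    (isDomain_bot L)
  rw [Nat.sub_zero] at h1
  exact h1

end Pool.Agent.SYZ71M
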