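import Pool.Agent.SYZ71.CAct
import Pool.Agent.SYZ71.ZeroEst
import Pool.Agent.SYZ71M.RC

/-!
# SYZ71M/RD : `F ⊗ F` over the Iitaka field is a domain; the inequality `(n - κ) r ≤ 2n²`
-/

set_option autoImplicit false

open MvPowerSeries Module TensorProduct

namespace Pool.Agent.SYZ71M

open Pool.Agent.SYZ71

variable {k : Type*} [Field k] {d : ℕ}

/-- the space generated by `L 1 0` over a subfield -/
noncomputable def genSpace (L : ℕ → ℕ → Submodule k (PS k d)) (hL : IsFamily L)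
    (K : IntermediateField k (Fr k d)) (h₁ : K ≤ Fld L) :
    Submodule K (IntermediateField.extendScalars h₁) :=
  Submodule.span K (Set.range fun f : L 1 0 =>
    (⟨algebraMap (PS k d) (Fr k d) (f : PS k d), hL.mem_field 1 0 f f.2⟩ :
      IntermediateField.extendScalars h₁))

theorem genSpace_finite (L : ℕ → ℕ → Submodule k (PS k d)) (hL : IsFamily L)
    (K : IntermediateField k (Fr k d)) (h₁ : K ≤ Fld L) :
    Module.Finite K (genSpace L hL K h₁) := by
  have hfin := hL.fin 1 0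
  have h1 := finite_span K (L 1 0)
  let φ : genSpace L hL K h₁ →ₗ[K] Submodule.span K
      (algebraMap (PS k d) (Fr k d) '' (L 1 0 : Set (PS k d))) :=
    { toFun := fun x => ⟨((x : IntermediateField.extendScalars h₁) : Fr k d), by
        have h2 : genSpace L hL K h₁ ≤ (Submodule.span K
            (algebraMap (PS k d) (Fr k d) '' (L 1 0 : Set (PS k d)))).comap
            ((IntermediateField.extendScalars h₁).val).toLinearMap := by
          unfold genSpace
          rw [Submodule.span_le]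
          rintro _ ⟨f, rfl⟩
          exact Submodule.subset_span ⟨f, f.2, rfl⟩
        exact h2 x.2⟩
      map_add' := fun x y => rfl
      map_smul' := fun c x => rfl }
  have hφ : Function.Injective φ := by
    intro x y hxy
    apply Subtype.ext
    apply Subtype.ext
    have h3 : ((φ x : Submodule.span K
      (algebraMap (PS k d) (Fr k d) '' (L 1 0 : Set (PS k d)))) : Fr k d) = φ y := by rw [hxy]
    exact h3
  exact Module.Finite.of_injective φ hφ

theorem genSpace_adjoin (L : ℕ → ℕ → Submodule k (PS k d)) (hL : IsFamily L)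
    (K : IntermediateField k (Fr k d)) (h₁ : K ≤ Fld L) :
    IntermediateField.adjoin K (genSpace L hL K h₁ : Set (IntermediateField.extendScalars h₁)) =
      ⊤ := by
  rw [eq_top_iff]
  rintro ⟨x, hx⟩ _
  refine IntermediateField.adjoin_induction k
    (p := fun x hx => (⟨x, hx⟩ : IntermediateField.extendScalars h₁) ∈
      IntermediateField.adjoin K
        (genSpace L hL K h₁ : Set (IntermediateField.extendScalars h₁))) ?_ ?_ ?_ ?_ ?_ hx
  · rintro _ ⟨f, hf, rfl⟩
    apply IntermediateField.subset_adjoin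
    exact Submodule.subset_span ⟨⟨f, hf⟩, rfl⟩
  · intro c
    have h2 := (IntermediateField.adjoin K
        (genSpace L hL K h₁ : Set (IntermediateField.extendScalars h₁))).algebraMap_mem
        (algebraMap k K c)
    exact h2
  · intro x y hx hy h3 h4
    exact (IntermediateField.adjoin K
        (genSpace L hL K h₁ : Set (IntermediateField.extendScalars h₁))).add_mem h3 h4
  · intro x hx h3
    exact (IntermediateField.adjoin K
        (genSpace L hL K h₁ : Set (IntermediateField.extendScalars h₁))).inv_mem h3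
  · intro x y hx hy h3 h4
    exact (IntermediateField.adjoin K
        (genSpace L hL K h₁ : Set (IntermediateField.extendScalars h₁))).mul_mem h3 h4

theorem iitaka_fixed (r : ℕ) (g : (Fin r → ℤ) → (PS k d ≃ₐ[k] PS k d))
    (L : ℕ → ℕ → Submodule k (PS k d)) (hL : IsFamily L) (h00 : (1 : PS k d) ∈ L 0 0)
    (htriv : ∀ v E, ∀ f ∈ L 0 E, ∀ h ∈ L 0 E, g v f * h = f * g v h) :
    ∀ v, ∀ f h : PS k d, h ≠ 0 → algebraMap (PS k d) (Fr k d) f /
      algebraMap (PS k d) (Fr k d) h ∈ iitaka L hL h00 → g v f * h = f * g v h := by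
  intro v f h hh hfh
  obtain ⟨E, f', hf', h', hh', hh0', heq⟩ := (mem_iitaka L hL h00 _).1 hfh
  rw [← ext_div_eq_iff (g v) f h hh]
  have h1 := (ext_div_eq_iff (g v) f' h' hh0').2 (htriv v E f' hf' h' hh')
  change CI.ext (g v) (algebraMap (PS k d) (Fr k d) f / algebraMap (PS k d) (Fr k d) h) = _
  rw [heq]
  exact h1

theorem isDomain_iitaka [CharZero k] (r : ℕ) (hr : 1 ≤ r)
    (g : (Fin r → ℤ) → (PS k d ≃ₐ[k] PS k d)) (hg : ∀ u v, g (u + v) = g u * g v)
    (L : ℕ → ℕ → Submodule k (PS k d)) (hL : IsFamily L) (h00 : (1 : PS k d) ∈ L 0 0)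
    (hgL : ∃ C : ℕ, ∀ (v : Fin r → ℤ) (D E : ℕ), 1 ≤ D → ∃ b : PS k d, b ≠ 0 ∧
      ∀ f ∈ L D E, b * g v f ∈ L (2 * D) (E + C * D * (1 + ∑ i, (v i).natAbs ^ 2)))
    (hinv : ∀ v, v ≠ 0 → ∀ D, ∀ f ∈ L D 0, ∀ h ∈ L D 0, h ≠ 0 → g v f * h = f * g v h →
      ∃ E, ∃ f' ∈ L 0 E, ∃ h' ∈ L 0 E, h' ≠ 0 ∧ f * h' = f' * h)
    (htriv : ∀ v E, ∀ f ∈ L 0 E, ∀ h ∈ L 0 E, g v f * h = f * g v h) :
    IsDomain (IntermediateField.extendScalars (iitaka_le L hL h00) ⊗[iitaka L hL h00]
      IntermediateField.extendScalars (iitaka_le L hL h00)) := by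
  obtain ⟨γ, hγ, hγx⟩ := exists_act g hg L hL hgL (iitaka L hL h00) (iitaka_le L hL h00)
    (iitaka_fixed r g L hL h00 htriv)
  have hfin := genSpace_finite L hL (iitaka L hL h00) (iitaka_le L hL h00)
  refine isDomain_of_fixed r hr γ hγ ?_ (genSpace L hL (iitaka L hL h00) (iitaka_le L hL h00))
    (genSpace_adjoin L hL _ _)
  intro v hv a ha
  have h1 : ((γ v a : IntermediateField.extendScalars (iitaka_le L hL h00)) : Fr k d) = a := by
    rw [ha]
  rw [hγx] at h1
  obtain ⟨D, f, hf, h, hh, hh0, hx⟩ := Pool.Agent.SYZ71.exists_frac hL a.2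
  have h2 : CI.ext (g v) (algebraMap (PS k d) (FractionRing (PS k d)) f /
      algebraMap (PS k d) (FractionRing (PS k d)) h) =
      algebraMap (PS k d) (FractionRing (PS k d)) f /
        algebraMap (PS k d) (FractionRing (PS k d)) h := by
    rw [← hx]; exact h1
  rw [ext_div_eq_iff (g v) f h hh0] at h2
  obtain ⟨E, f', hf', h', hh', hh0', heq⟩ := hinv v hv D f hf h hh hh0 h2
  have h3 : (a : Fr k d) ∈ iitaka L hL h00 := by
    rw [mem_iitaka]
    refine ⟨E, f', hf', h', hh', hh0', ?_⟩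
    rw [hx]
    change algebraMap (PS k d) (Fr k d) f / algebraMap (PS k d) (Fr k d) h = _
    rw [div_eq_div_iff (algebraMap_ne_zero hh0) (algebraMap_ne_zero hh0'), ← map_mul, ← map_mul,
      heq]
  exact ⟨⟨(a : Fr k d), h3⟩, Subtype.ext rfl⟩

/-- the inequality if `G` acts trivially on the Iitaka field -/
theorem rel_triv {k : Type*} [Field k] [CharZero k] (n r : ℕ)
    (g : (Fin r → ℤ) → (PS k (2 * n) ≃ₐ[k] PS k (2 * n)))
    (hg : ∀ u v, g (u + v) = g u * g v) (hloc : LocalBound n g)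
    (L : ℕ → ℕ → Submodule k (PS k (2 * n))) (hL : SectionFamily n L)
    (h00 : (1 : PS k (2 * n)) ∈ L 0 0)
    (hgL : ∃ C : ℕ, ∀ (v : Fin r → ℤ) (D E : ℕ), 1 ≤ D → ∃ b : PS k (2 * n), b ≠ 0 ∧
      ∀ f ∈ L D E, b * g v f ∈ L (2 * D) (E + C * D * (1 + ∑ i, (v i).natAbs ^ 2)))
    (hinv : ∀ v, v ≠ 0 → ∀ D, ∀ f ∈ L D 0, ∀ h ∈ L D 0, h ≠ 0 → g v f * h = f * g v h →
      ∃ E, ∃ f' ∈ L 0 E, ∃ h' ∈ L 0 E, h' ≠ 0 ∧ f * h' = f' * h)
    (htriv : ∀ v E, ∀ f ∈ L 0 E, ∀ h ∈ L 0 E, g v f * h = f * g v h) :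
    ∃ e : ℕ, (∃ E : ℕ, ∃ s : Fin (e + 1) → PS k (2 * n), (∀ i, s i ∈ L 0 E) ∧ s 0 ≠ 0 ∧
      AlgebraicIndependent k (fun i : Fin e =>
        algebraMap (PS k (2 * n)) (Fr k (2 * n)) (s i.succ) /
        algebraMap (PS k (2 * n)) (Fr k (2 * n)) (s 0))) ∧ (n - e) * r ≤ 2 * n ^ 2 := by
  obtain ⟨e₀, he₀⟩ := exists_trdeg_iitaka n L hL h00
  refine ⟨e₀, exists_kappa L hL.toIsFamily h00 e₀ he₀, ?_⟩
  rcases Nat.eq_zero_or_pos r with rfl | hr
  · rw [mul_zero]; exact Nat.zero_le _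
  have h1 := rel_core n r e₀ e₀ g hg hloc L hL h00 hgL hinv he₀ (iitaka L hL.toIsFamily h00)
    le_rfl (iitaka_le L hL.toIsFamily h00) he₀ le_rfl
    (iitaka_fixed r g L hL.toIsFamily h00 htriv)
    (isDomain_iitaka r hr g hg L hL.toIsFamily h00 hgL hinv htriv)
  rw [Nat.add_sub_cancel] at h1
  calc (n - e₀) * r ≤ 2 * n * n := h1
    _ = 2 * n ^ 2 := by ring

end Pool.Agent.SYZ71M
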