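import Pool.Agent.SYZ71.Defs

/-!
# SYZ71M/MV1 : the graded lexicographic exponent valuation on a power series ring

`nu f` is the smallest exponent of `f` for the graded lexicographic order.
-/

set_option autoImplicit false

open MvPowerSeries

namespace Pool.Agent.SYZ71M

open Pool.Agent.SYZ71

variable {k : Type*} [Field k] {d : ℕ}

/-- graded lexicographic order of the exponents -/
noncomputable abbrev mo (d : ℕ) : MonomialOrder (Fin d) := MonomialOrder.degLex

theorem exists_nu (f : PS k d) (hf : f ≠ 0) :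
    ∃ a : Fin d →₀ ℕ, coeff a f ≠ 0 ∧ ∀ b, coeff b f ≠ 0 → (mo d).toSyn a ≤ (mo d).toSyn b := by
  have hne : {s : (mo d).syn | coeff ((mo d).toSyn.symm s) f ≠ 0}.Nonempty := by
    by_contra h
    rw [Set.not_nonempty_iff_eq_empty] at h
    apply hf
    ext b
    by_contra hb
    have h1 : (mo d).toSyn b ∈ {s : (mo d).syn | coeff ((mo d).toSyn.symm s) f ≠ 0} := by
      rw [Set.mem_ofPred_eq, AddEquiv.symm_apply_apply]
      simpa using hb
    rw [h] at h1
    exact h1
  have hwf := (mo d).wellFoundedLT_syn.wf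
  refine ⟨(mo d).toSyn.symm (hwf.min _ hne), hwf.min_mem _ hne, ?_⟩
  intro b hb
  rw [AddEquiv.apply_symm_apply]
  apply le_of_not_gt
  apply hwf.not_lt_min
  rw [Set.mem_ofPred_eq, AddEquiv.symm_apply_apply]
  exact hb

open Classical in
/-- the smallest exponent -/
noncomputable def nu (f : PS k d) : Fin d →₀ ℕ :=
  if hf : f ≠ 0 then (exists_nu f hf).choose else 0

theorem coeff_nu (f : PS k d) (hf : f ≠ 0) : coeff (nu f) f ≠ 0 := by
  rw [nu, dif_pos hf]
  exact (exists_nu f hf).choose_spec.1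

theorem nu_le (f : PS k d) (b : Fin d →₀ ℕ) (hb : coeff b f ≠ 0) :
    (mo d).toSyn (nu f) ≤ (mo d).toSyn b := by
  have hf : f ≠ 0 := by
    rintro rfl
    exact hb (by simp)
  rw [nu, dif_pos hf]
  exact (exists_nu f hf).choose_spec.2 b hb

theorem coeff_of_lt_nu (f : PS k d) (b : Fin d →₀ ℕ)
    (hb : (mo d).toSyn b < (mo d).toSyn (nu f)) : coeff b f = 0 := by
  by_contra h
  exact absurd (nu_le f b h) (not_le.2 hb)

theorem nu_eq (f : PS k d) (a : Fin d →₀ ℕ) (ha : coeff a f ≠ 0)
    (h : ∀ b, coeff b f ≠ 0 → (mo d).toSyn a ≤ (mo d).toSyn b) : nu f = a := by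
  have hf : f ≠ 0 := by
    rintro rfl
    exact ha (by simp)
  apply (mo d).toSyn.injective
  exact le_antisymm (nu_le f a ha) (h _ (coeff_nu f hf))

theorem coeff_nu_add (f h : PS k d) :
    coeff (nu f + nu h) (f * h) = coeff (nu f) f * coeff (nu h) h := by
  classical
  rw [MvPowerSeries.coeff_mul]
  rw [Finset.sum_eq_single (nu f, nu h)]
  · rintro ⟨a, b⟩ hab hne
    rw [Finset.HasAntidiagonal.mem_antidiagonal] at hab
    change a + b = nu f + nu h at hab
    change coeff a f * coeff b h = 0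
    by_cases h1 : (mo d).toSyn a < (mo d).toSyn (nu f)
    · rw [coeff_of_lt_nu f a h1, zero_mul]
    by_cases h2 : (mo d).toSyn b < (mo d).toSyn (nu h)
    · rw [coeff_of_lt_nu h b h2, mul_zero]
    exfalso
    apply hne
    rw [not_lt] at h1 h2
    have h3 : (mo d).toSyn a + (mo d).toSyn b = (mo d).toSyn (nu f) + (mo d).toSyn (nu h) := by
      rw [← map_add, ← map_add, hab]
    have h4 : (mo d).toSyn a = (mo d).toSyn (nu f) := by
      rcases eq_or_lt_of_le h1 with h5 | h5
      · exact h5.symm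
      · exfalso
        have := add_lt_add_of_lt_of_le h5 h2
        rw [h3] at this
        exact lt_irrefl _ this
    have h6 : a = nu f := (mo d).toSyn.injective h4
    subst h6
    rw [add_left_cancel hab]
  · intro hne
    exfalso
    apply hne
    rw [Finset.HasAntidiagonal.mem_antidiagonal]

theorem nu_mul (f h : PS k d) (hf : f ≠ 0) (hh : h ≠ 0) : nu (f * h) = nu f + nu h := by
  classical
  apply nu_eq
  · rw [coeff_nu_add]
    exact mul_ne_zero (coeff_nu f hf) (coeff_nu h hh)
  · intro c hc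
    rw [MvPowerSeries.coeff_mul] at hc
    obtain ⟨⟨a, b⟩, hab, hne⟩ := Finset.exists_ne_zero_of_sum_ne_zero hc
    rw [Finset.HasAntidiagonal.mem_antidiagonal] at hab
    change a + b = c at hab
    change coeff a f * coeff b h ≠ 0 at hne
    rw [← hab, map_add, map_add]
    exact add_le_add (nu_le f a (left_ne_zero_of_mul hne)) (nu_le h b (right_ne_zero_of_mul hne))

theorem nu_smul (c : k) (hc : c ≠ 0) (f : PS k d) (hf : f ≠ 0) : nu (c • f) = nu f := by
  apply nu_eq
  · rw [MvPowerSeries.coeff_smul]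
    exact mul_ne_zero hc (coeff_nu f hf)
  · intro b hb
    rw [MvPowerSeries.coeff_smul] at hb
    exact nu_le f b (right_ne_zero_of_mul hb)

theorem degree_nu (f : PS k d) (hf : f ≠ 0) : ((Finsupp.degree (nu f) : ℕ) : ℕ∞) = f.order := by
  apply le_antisymm
  · apply MvPowerSeries.le_order
    intro b hb
    apply coeff_of_lt_nu
    rw [MonomialOrder.degLex_lt_iff, Finsupp.DegLex.lt_iff]
    left
    exact_mod_cast hb
  · exact MvPowerSeries.order_le (coeff_nu f hf)

/-- a sum of series with pairwise different smallest exponents does not vanish -/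
theorem sum_ne_zero_of_injOn {ι : Type*} (s : Finset ι) (hs : s.Nonempty) (f : ι → PS k d)
    (hf : ∀ i ∈ s, f i ≠ 0) (hinj : Set.InjOn (fun i => nu (f i)) s) : ∑ i ∈ s, f i ≠ 0 := by
  classical
  obtain ⟨i₀, hi₀, hmin⟩ := Finset.exists_min_image s (fun i => (mo d).toSyn (nu (f i))) hs
  intro h0
  have h1 : coeff (nu (f i₀)) (∑ i ∈ s, f i) = coeff (nu (f i₀)) (f i₀) := by
    rw [map_sum]
    apply Finset.sum_eq_single_of_mem i₀ hi₀
    intro i hi hne
    apply coeff_of_lt_nu
    refine lt_of_le_of_ne (hmin i hi) ?_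
    intro h2
    apply hne
    exact hinj hi hi₀ ((mo d).toSyn.injective h2).symm
  rw [h0, map_zero] at h1
  exact coeff_nu (f i₀) (hf i₀ hi₀) h1.symm

end Pool.Agent.SYZ71M
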