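import Mathlib

/-!
# SYZ71M/MV2 : points of a coset of a subgroup of rank `≤ e` in a box
-/

set_option autoImplicit false

namespace Pool.Agent.SYZ71M

/-- If the differences of the elements of `T ⊆ [0, s]^d` span a space of dimension `≤ e` then
`T` has at most `(s+1)^e` elements. -/
theorem card_le_of_rank {d : ℕ} (e s : ℕ) (T : Finset (Fin d → ℤ))
    (hbox : ∀ t ∈ T, ∀ i, 0 ≤ t i ∧ t i ≤ s)
    (hrank : ∀ t₀ ∈ T, Module.finrank ℚ (Submodule.span ℚ
      ((fun t : Fin d → ℤ => fun i => ((t i - t₀ i : ℤ) : ℚ)) '' (T : Set (Fin d → ℤ)))) ≤ e) :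
    T.card ≤ (s + 1) ^ e := by
  classical
  rcases T.eq_empty_or_nonempty with rfl | ⟨t₀, ht₀⟩
  · simp
  set D : (Fin d → ℤ) → (Fin d → ℚ) := fun t i => ((t i - t₀ i : ℤ) : ℚ) with hD
  set U : Submodule ℚ (Fin d → ℚ) := Submodule.span ℚ (D '' (T : Set (Fin d → ℤ))) with hU
  have hUe : Module.finrank ℚ U ≤ e := hrank t₀ ht₀
  -- coordinate functionals on `U`
  set φ : Fin d → Module.Dual ℚ U := fun i => (LinearMap.proj i).comp U.subtype with hφ
  obtain ⟨b, hb, hspan, hli⟩ := exists_linearIndependent ℚ (Set.range φ)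
  have hbfin : b.Finite := (Set.finite_range φ).subset hb
  have hfin : Fintype b := hbfin.fintype
  have hcard : Fintype.card b ≤ e := by
    have h1 := hli.fintype_card_le_finrank
    rw [Subspace.dual_finrank_eq] at h1
    exact h1.trans hUe
  have hchoose : ∀ f : b, ∃ i, φ i = f := fun f => hb f.2
  choose J hJ using hchoose
  -- injectivity
  set c : (Fin d → ℤ) → (b → Fin (s + 1)) := fun t f =>
    ⟨(t (J f)).toNat % (s + 1), Nat.mod_lt _ (Nat.succ_pos s)⟩ with hc
  have hinj : Set.InjOn c T := by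
    intro t ht t' ht' h
    have hcoord : ∀ f : b, t (J f) = t' (J f) := by
      intro f
      have h1 := congrArg Fin.val (congrFun h f)
      change (t (J f)).toNat % (s + 1) = (t' (J f)).toNat % (s + 1) at h1
      have h2 := hbox t ht (J f)
      have h3 := hbox t' ht' (J f)
      rw [Nat.mod_eq_of_lt (by omega), Nat.mod_eq_of_lt (by omega)] at h1
      omega
    have hmem : D t - D t' ∈ U :=
      U.sub_mem (Submodule.subset_span ⟨t, ht, rfl⟩) (Submodule.subset_span ⟨t', ht', rfl⟩)
    have hz : ∀ f ∈ Submodule.span ℚ b, f ⟨D t - D t', hmem⟩ = 0 := by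
      intro f hf
      refine Submodule.span_induction (p := fun f _ => f ⟨D t - D t', hmem⟩ = 0) ?_ ?_ ?_ ?_ hf
      · intro f hf
        have h4 := hJ ⟨f, hf⟩
        change φ (J ⟨f, hf⟩) = f at h4
        rw [← h4]
        change (D t - D t') (J ⟨f, hf⟩) = 0
        rw [Pi.sub_apply, hD]
        simp only [hcoord ⟨f, hf⟩, sub_self]
      · simp
      · intro f g _ _ h1 h2
        rw [LinearMap.add_apply, h1, h2, add_zero]
      · intro a f _ h1
        rw [LinearMap.smul_apply, h1, smul_zero]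
    funext i
    have h5 : φ i ∈ Submodule.span ℚ b := by
      rw [hspan]
      exact Submodule.subset_span ⟨i, rfl⟩
    have h6 := hz _ h5
    change (D t - D t') i = 0 at h6
    rw [Pi.sub_apply, hD] at h6
    simp only at h6
    have h7 : ((t i - t₀ i : ℤ) : ℚ) = ((t' i - t₀ i : ℤ) : ℚ) := sub_eq_zero.1 h6
    have h8 : t i - t₀ i = t' i - t₀ i := by exact_mod_cast h7
    omega
  have h9 : T.card ≤ (Finset.univ : Finset (b → Fin (s + 1))).card :=
    Finset.card_le_card_of_injOn c (fun _ _ => Finset.mem_coe.2 (Finset.mem_univ _)) hinj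
  rw [Finset.card_univ, Fintype.card_fun, Fintype.card_fin] at h9
  exact h9.trans (Nat.pow_le_pow_right (Nat.succ_pos s) hcard)

end Pool.Agent.SYZ71M
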